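import Pool.Agent.W935.SK.Stm

/-!
# PRIME: certificates outside few residue classes
-/

set_option autoImplicit false

namespace Pool.Agent.W398.SK

open Polynomial Finset Pool.Agent.H884R2.Sko Pool.Agent.H692R2.USS Pool.Agent.W935.SK
open scoped Classical

/-- the terms of the unit sequences -/
noncomputable def Y {R : Type*} [CommRing R] {d : ℕ} (c : Fin d → R) (n : ℕ) (j : Fin d) : R :=
  seq c (Pi.single j 1) n

theorem lin {R : Type*} [CommRing R] {d : ℕ} (c a : Fin d → R) (n : ℕ) :
    seq c a n = ∑ j, a j * Y c n j := by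
  symm
  apply eq_seq c a (fun n => ∑ j, a j * Y c n j)
  · intro n
    have h1 : ∀ j, a j * Y c (n + d) j = ∑ i, a j * (c i * Y c (n + i) j) := by
      intro j
      unfold Y
      rw [seq_sol, Finset.mul_sum]
    simp only [h1]
    rw [Finset.sum_comm]
    refine Finset.sum_congr rfl fun i _ => ?_
    rw [Finset.mul_sum]
    exact Finset.sum_congr rfl fun j _ => by ring
  · intro i
    show ∑ j, a j * Y c i j = a i
    rw [Finset.sum_eq_single i]
    · unfold Y
      rw [seq_init, Pi.single_eq_same, mul_one]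
    · intro j _ hj
      unfold Y
      rw [seq_init, Pi.single_eq_of_ne (Ne.symm hj), mul_zero]
    · intro h
      exact absurd (Finset.mem_univ _) h

theorem dvdX {R : Type*} [CommRing R] {d : ℕ} (c : Fin d → R) (n : ℕ) :
    chi c ∣ X ^ n - ∑ j, C (Y c n j) * X ^ (j : ℕ) := by
  induction n using Nat.strong_induction_on with
  | _ n ih =>
    by_cases hn : n < d
    · have : (∑ j, C (Y c n j) * X ^ (j : ℕ) : R[X]) = X ^ n := by
        rw [Finset.sum_eq_single (⟨n, hn⟩ : Fin d)]
        · have h1 : Y c n (⟨n, hn⟩ : Fin d) = 1 := by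
            unfold Y
            have := seq_init c (Pi.single (⟨n, hn⟩ : Fin d) 1) (⟨n, hn⟩ : Fin d)
            rw [Pi.single_eq_same] at this
            exact this
          rw [h1, C_1, one_mul]
        · intro j _ hj
          have h1 : Y c n j = 0 := by
            unfold Y
            have := seq_init c (Pi.single j 1) (⟨n, hn⟩ : Fin d)
            rw [Pi.single_eq_of_ne (Ne.symm hj)] at this
            exact this
          rw [h1, C_0, zero_mul]
        · intro h
          exact absurd (Finset.mem_univ _) h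
      rw [this, sub_self]
      exact dvd_zero _
    · obtain ⟨m, rfl⟩ : ∃ m, n = m + d := ⟨n - d, by omega⟩
      have h1 : ∀ j, Y c (m + d) j = ∑ i : Fin d, c i * Y c (m + i) j := by
        intro j
        unfold Y
        rw [seq_sol]
      have h2 : (X ^ (m + d) - ∑ j, C (Y c (m + d) j) * X ^ (j : ℕ) : R[X]) =
          X ^ m * chi c +
            ∑ i : Fin d, C (c i) * (X ^ (m + (i : ℕ)) - ∑ j, C (Y c (m + i) j) * X ^ (j : ℕ)) := by
        have h3 : (∑ j, C (Y c (m + d) j) * X ^ (j : ℕ) : R[X]) =
            ∑ i : Fin d, C (c i) * ∑ j, C (Y c (m + i) j) * X ^ (j : ℕ) := by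
          simp only [h1, map_sum, Finset.sum_mul, Finset.mul_sum]
          rw [Finset.sum_comm]
          refine Finset.sum_congr rfl fun i _ => Finset.sum_congr rfl fun j _ => ?_
          rw [C_mul]
          ring
        rw [h3]
        unfold chi
        rw [mul_sub, Finset.mul_sum, ← pow_add]
        simp only [mul_sub, Finset.sum_sub_distrib]
        have h4 : (∑ i : Fin d, X ^ m * (C (c i) * X ^ (i : ℕ)) : R[X]) =
            ∑ i : Fin d, C (c i) * X ^ (m + (i : ℕ)) := by
          refine Finset.sum_congr rfl fun i _ => ?_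
          rw [pow_add]
          ring
        rw [h4]
        ring
      rw [h2]
      apply dvd_add (dvd_mul_left _ _)
      apply Finset.dvd_sum
      intro i _
      exact Dvd.dvd.mul_left (ih (m + i) (by have := i.2; omega)) _

theorem Y_map (p : ℕ) {d : ℕ} (c : Fin d → ℤ) (n : ℕ) (j : Fin d) :
    ((Y c n j : ℤ) : ZMod p) = Y (fun i => (c i : ZMod p)) n j := by
  unfold Y
  have := map_seq (Int.castRingHom (ZMod p)) c (Pi.single j 1) n
  rw [eq_intCast] at this
  rw [this]
  congr 1
  funext i
  by_cases h : i = j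
  · subst h
    simp
  · rw [Pi.single_eq_of_ne h, Pi.single_eq_of_ne h, map_zero]

theorem count {K : Type*} [Field K] [Fintype K] {d : ℕ} (hd : 2 ≤ d) (i0 j0 : Fin d)
    (hij : j0 ≠ i0) (g : Fin d → K) (hg : g j0 ≠ 0) :
    ((univ : Finset (Fin d → K)).filter (fun y => y i0 = 0 ∧ ∑ j, g j * y j = 0)).card ≤
      Fintype.card K ^ (d - 2) := by
  set H := (univ : Finset (Fin d → K)).filter (fun y => y i0 = 0 ∧ ∑ j, g j * y j = 0) with hH
  have hq : 0 < Fintype.card K := Fintype.card_pos
  have h1 : (H ×ˢ ((univ : Finset K) ×ˢ (univ : Finset K))).card ≤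
      (univ : Finset (Fin d → K)).card := by
    apply Finset.card_le_card_of_injOn
      (fun z => z.1 + Pi.single j0 z.2.1 + Pi.single i0 z.2.2)
    · intro z _
      exact Finset.mem_coe.mpr (Finset.mem_univ _)
    · rintro ⟨y, s, t⟩ hz ⟨y', s', t'⟩ hz' he
      simp only [Finset.coe_product, Set.mem_prod, Finset.mem_coe, hH, Finset.mem_filter,
        Finset.mem_univ, true_and, and_true] at hz hz'
      simp only at he
      have e0 := congrFun he i0
      simp only [Pi.add_apply, Pi.single_eq_same, Pi.single_eq_of_ne (Ne.symm hij), add_zero,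
        hz.1, hz'.1, zero_add] at e0
      subst e0
      have e1 : y + Pi.single j0 s = y' + Pi.single j0 s' := add_right_cancel he
      have e2 : ∀ (x : Fin d → K) (r : K), ∑ j, g j * (x + Pi.single j0 r : Fin d → K) j =
          ∑ j, g j * x j + g j0 * r := by
        intro x r
        simp only [Pi.add_apply, mul_add, Finset.sum_add_distrib]
        congr 1
        rw [Finset.sum_eq_single j0]
        · rw [Pi.single_eq_same]
        · intro j _ hj
          rw [Pi.single_eq_of_ne hj, mul_zero]
        · intro h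
          exact absurd (Finset.mem_univ _) h
      have e3 := e2 y s
      have e4 := e2 y' s'
      rw [← e1, e3, hz.2, hz'.2, zero_add, zero_add] at e4
      have e5 : s = s' := mul_left_cancel₀ hg e4
      subst e5
      have e6 := add_right_cancel e1
      rw [e6]
  rw [Finset.card_product, Finset.card_product, Finset.card_univ, Finset.card_univ,
    Fintype.card_fun, Fintype.card_fin] at h1
  have h2 : Fintype.card K ^ d = Fintype.card K ^ (d - 2) * (Fintype.card K * Fintype.card K) := by
    conv_lhs => rw [show d = (d - 2) + 2 by omega, pow_add]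
    ring
  rw [h2] at h1
  exact Nat.le_of_mul_le_mul_right h1 (by positivity)

theorem prime_ (h : S_E1) : S_PRIME := by
  intro d c hd h0 hsq hne l N hl
  obtain ⟨p, hp, hpN, hp0, T, hT, hlT, hdvd⟩ := h d c (by omega) h0 hsq l (max N 3) hl
  have hpN' : N < p := lt_of_le_of_lt (le_max_left _ _) hpN
  have hp3 : 3 < p := lt_of_le_of_lt (le_max_right _ _) hpN
  have : Fact p.Prime := ⟨hp⟩
  set cp : Fin d → ZMod p := fun i => (c i : ZMod p) with hcp
  have hmon : (chi cp).Monic := chi_monic cp
  have hdeg : (chi cp).natDegree = d := chi_natDegree cp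
  let i0 : Fin d := ⟨0, by omega⟩
  -- the least `b`
  have hex : ∃ b : ℕ, 1 ≤ b ∧ ∃ r : ZMod p, chi cp ∣ X ^ b - C r := ⟨T, hT, 1, by rwa [C_1]⟩
  set b := Nat.find hex with hb
  obtain ⟨hb1, r, hr⟩ := Nat.find_spec hex
  have hbT : b ≤ T := Nat.find_min' hex ⟨hT, 1, by rwa [C_1]⟩
  have hmin : ∀ n, 0 < n → n < b → ∀ r : ZMod p, ¬ chi cp ∣ X ^ n - C r := by
    intro n hn hnb r hr
    exact Nat.find_min hex hnb ⟨hn, r, hr⟩
  rw [← hb] at hb1 hr
  have hsplit : ∀ {R : Type} [CommRing R] (y : Fin d → R), (∀ j, j ≠ i0 → y j = 0) →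
      (∑ j, C (y j) * X ^ (j : ℕ) : R[X]) = C (y i0) := by
    intro R _ y hy
    rw [Finset.sum_eq_single i0]
    · show C (y i0) * X ^ 0 = C (y i0)
      rw [pow_zero, mul_one]
    · intro j _ hj
      rw [hy j hj, C_0, zero_mul]
    · intro h
      exact absurd (Finset.mem_univ _) h
  -- for `0 < n < b` some coefficient is nonzero
  have hsome : ∀ n, 0 < n → n < b → ∃ j, j ≠ i0 ∧ Y cp n j ≠ 0 := by
    intro n hn hnb
    by_contra hcon
    push Not at hcon
    apply hmin n hn hnb (Y cp n i0)
    have := dvdX cp n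
    rwa [hsplit _ hcon] at this
  -- the coefficients at `b` vanish modulo `p`
  have hYb : (∑ j, C (Y cp b j) * X ^ (j : ℕ) : (ZMod p)[X]) = C r := by
    have h1 := dvdX cp b
    have h2 : chi cp ∣ (∑ j, C (Y cp b j) * X ^ (j : ℕ) - C r : (ZMod p)[X]) := by
      have := dvd_sub hr h1
      have e : (X ^ b - C r - (X ^ b - ∑ j, C (Y cp b j) * X ^ (j : ℕ)) : (ZMod p)[X]) =
          ∑ j, C (Y cp b j) * X ^ (j : ℕ) - C r := by ring
      rwa [e] at this
    have h3 : (∑ j, C (Y cp b j) * X ^ (j : ℕ) - C r : (ZMod p)[X]).degree < (chi cp).degree := by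
      rw [Polynomial.degree_eq_natDegree hmon.ne_zero, hdeg]
      refine lt_of_le_of_lt (Polynomial.degree_sub_le _ _) (max_lt (chi_tail _) ?_)
      refine lt_of_le_of_lt Polynomial.degree_C_le ?_
      exact_mod_cast (by omega : 0 < d)
    have h4 := Polynomial.eq_zero_of_dvd_of_degree_lt h2 h3
    exact sub_eq_zero.mp h4
  have hcoefY : ∀ j : Fin d, Y cp b j = if j = i0 then r else 0 := by
    intro j
    have h1 := congrArg (fun q : (ZMod p)[X] => q.coeff (j : ℕ)) hYb
    simp only [Polynomial.finsetSum_coeff, Polynomial.coeff_C_mul, Polynomial.coeff_X_pow] at h1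
    rw [Finset.sum_eq_single j] at h1
    · rw [if_pos rfl, mul_one] at h1
      rw [h1, Polynomial.coeff_C]
      by_cases hj : j = i0
      · rw [if_pos hj, if_pos (by rw [hj])]
      · rw [if_neg hj, if_neg]
        intro h2
        exact hj (Fin.ext h2)
    · intro i _ hi
      rw [if_neg, mul_zero]
      intro h2
      exact hi (Fin.ext h2.symm)
    · intro h
      exact absurd (Finset.mem_univ _) h
  have hpY : ∀ j, j ≠ i0 → (p : ℤ) ∣ Y c b j := by
    intro j hj
    rw [← ZMod.intCast_zmod_eq_zero_iff_dvd, Y_map]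
    show Y cp b j = 0
    rw [hcoefY, if_neg hj]
  -- some coefficient at `b` is nonzero over the integers
  have hYne : ∃ j, j ≠ i0 ∧ Y c b j ≠ 0 := by
    by_contra hcon
    push Not at hcon
    apply hne b hb1 (Y c b i0)
    have := dvdX c b
    rwa [hsplit _ hcon] at this
  obtain ⟨j1, hj1, hj1'⟩ := hYne
  have hex2 : ∃ w : ℕ, ¬ ∀ j, j ≠ i0 → (p : ℤ) ^ w ∣ Y c b j := by
    refine ⟨(Y c b j1).natAbs, fun hall => ?_⟩
    have h1 := hall j1 hj1
    have h2 := Int.natAbs_dvd_natAbs.mpr h1
    rw [Int.natAbs_pow, Int.natAbs_natCast] at h2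
    have h3 := Nat.le_of_dvd (Int.natAbs_pos.mpr hj1') h2
    have h4 : (Y c b j1).natAbs < p ^ (Y c b j1).natAbs := Nat.lt_pow_self hp.one_lt
    omega
  set w := Nat.find hex2 with hw
  have hw1 := Nat.find_spec hex2
  rw [← hw] at hw1
  have hw2 : 2 ≤ w := by
    by_contra hlt
    apply hw1
    have : w = 0 ∨ w = 1 := by omega
    rcases this with h2 | h2
    · rw [h2]
      intro j _
      simp
    · rw [h2]
      intro j hj
      rw [pow_one]
      exact hpY j hj
  obtain ⟨v, hv⟩ : ∃ v, w = v + 1 := ⟨w - 1, by omega⟩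
  have hv1 : 1 ≤ v := by omega
  have hvall : ∀ j, j ≠ i0 → (p : ℤ) ^ v ∣ Y c b j := by
    have := Nat.find_min hex2 (show v < Nat.find hex2 by rw [← hw]; omega)
    rwa [not_not] at this
  rw [hv] at hw1
  push Not at hw1
  obtain ⟨j2, hj2, hj2'⟩ := hw1
  have hβex : ∀ j, ∃ β : ℤ, (j = i0 → β = 0) ∧ (j ≠ i0 → Y c b j = (p : ℤ) ^ v * β) := by
    intro j
    by_cases hj : j = i0
    · exact ⟨0, fun _ => rfl, fun h => absurd hj h⟩
    · obtain ⟨β, hβ⟩ := hvall j hj
      exact ⟨β, fun h => absurd h hj, fun _ => hβ⟩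
  choose β hβ0 hβ1 using hβex
  have hppos : (0 : ℤ) < (p : ℤ) ^ v := by
    have : (0 : ℤ) < p := by exact_mod_cast hp.pos
    positivity
  have hβj2 : ((β j2 : ℤ) : ZMod p) ≠ 0 := by
    intro h1
    rw [ZMod.intCast_zmod_eq_zero_iff_dvd] at h1
    apply hj2'
    rw [hβ1 j2 hj2, pow_succ]
    exact mul_dvd_mul_left _ h1
  -- lam
  have hlam : ¬ (p : ℤ) ∣ Y c b i0 := by
    intro h1
    rw [← ZMod.intCast_zmod_eq_zero_iff_dvd, Y_map] at h1
    have h2 : Y cp b i0 = 0 := h1
    rw [hcoefY, if_pos rfl] at h2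
    rw [h2, C_0, sub_zero] at hr
    obtain ⟨i, -, hi⟩ := (dvd_prime_pow Polynomial.prime_X b).mp hr
    have h3 : chi cp = X ^ i := Polynomial.eq_of_monic_of_associated hmon (Polynomial.monic_X_pow i) hi
    have h4 : i = d := by rw [← hdeg, h3, Polynomial.natDegree_X_pow]
    have h5 : (chi cp).coeff 0 = 0 := by
      rw [h3, Polynomial.coeff_X_pow, if_neg (by omega)]
    apply hp0
    rw [← ZMod.intCast_zmod_eq_zero_iff_dvd]
    have h6 : (chi cp).coeff 0 = (((chi c).coeff 0 : ℤ) : ZMod p) := by
      have := chi_map c (Int.castRingHom (ZMod p))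
      have h7 := congrArg (fun q : (ZMod p)[X] => q.coeff 0) this
      simp only [Polynomial.coeff_map, eq_intCast] at h7
      exact h7.symm
    rw [← h6, h5]
  -- the exceptional set
  let Hn : ℕ → Finset (Fin d → ZMod p) := fun n =>
    (univ : Finset (Fin d → ZMod p)).filter (fun y => y i0 = 0 ∧
      ∑ j, (if n = 0 then ((β j : ℤ) : ZMod p) else Y cp n j) * y j = 0)
  refine ⟨p, hp, hpN', hp0, b, v, Y c b i0, (Finset.range b).biUnion Hn, ?_, ?_⟩
  · have h1 : ((Finset.range b).biUnion Hn).card ≤ ∑ n ∈ Finset.range b, p ^ (d - 2) := by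
      refine Finset.card_biUnion_le.trans (Finset.sum_le_sum fun n hn => ?_)
      rw [Finset.mem_range] at hn
      by_cases hn0 : n = 0
      · have := count hd i0 j2 hj2 (fun j => if n = 0 then ((β j : ℤ) : ZMod p) else Y cp n j)
          (by simp only [if_pos hn0]; exact hβj2)
        rw [ZMod.card] at this
        refine le_trans (le_of_eq ?_) this
        simp only [Hn]
        congr
      · obtain ⟨j, hj, hj'⟩ := hsome n (by omega) hn
        have := count hd i0 j hj (fun j => if n = 0 then ((β j : ℤ) : ZMod p) else Y cp n j)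
          (by simp only [if_neg hn0]; exact hj')
        rw [ZMod.card] at this
        refine le_trans (le_of_eq ?_) this
        simp only [Hn]
        congr
    rw [Finset.sum_const, Finset.card_range, smul_eq_mul] at h1
    calc l * ((Finset.range b).biUnion Hn).card ≤ l * (b * p ^ (d - 2)) := Nat.mul_le_mul_left _ h1
      _ ≤ l * (T * p ^ (d - 2)) := by gcongr
      _ = (l * T) * p ^ (d - 2) := by ring
      _ ≤ p * p ^ (d - 2) := Nat.mul_le_mul_right _ hlT
      _ = p ^ (d - 1) := by
          rw [← pow_succ']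
          congr 1
          omega
  · intro a ha0 haΩ
    have ha0' : a i0 = 0 := by
      have := seq_init c a i0
      rw [← this]
      exact ha0
    have hnot : ∀ n, n < b →
        ∑ j, (if n = 0 then ((β j : ℤ) : ZMod p) else Y cp n j) * ((a j : ℤ) : ZMod p) ≠ 0 := by
      intro n hn hs
      apply haΩ
      rw [Finset.mem_biUnion]
      refine ⟨n, Finset.mem_range.mpr hn, ?_⟩
      simp only [Hn, Finset.mem_filter, Finset.mem_univ, true_and]
      exact ⟨by rw [ha0']; simp, hs⟩
    refine ⟨hp, by omega, hb1, hv1, hlam, ?_, ha0, ?_, ?_⟩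
    · intro e
      have h1 : seq c e 0 = e i0 := seq_init c e i0
      rw [h1, lin c e b, ← Finset.add_sum_erase _ _ (Finset.mem_univ i0)]
      have h2 : e i0 * Y c b i0 + ∑ x ∈ Finset.univ.erase i0, e x * Y c b x -
          Y c b i0 * e i0 = ∑ x ∈ Finset.univ.erase i0, e x * Y c b x := by ring
      rw [h2]
      apply Finset.dvd_sum
      intro j hj
      exact Dvd.dvd.mul_left (hvall j (Finset.ne_of_mem_erase hj)) _
    · intro n hn hnb hdv
      apply hnot n hnb
      rw [← ZMod.intCast_zmod_eq_zero_iff_dvd, lin c a n] at hdv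
      rw [← hdv, Int.cast_sum]
      refine Finset.sum_congr rfl fun j _ => ?_
      rw [if_neg (by omega), Int.cast_mul, Y_map]
      ring
    · intro htop
      apply hnot 0 (by omega)
      have h1 : seq c a b = (p : ℤ) ^ v * ∑ j, β j * a j := by
        rw [lin c a b, Finset.mul_sum]
        refine Finset.sum_congr rfl fun j _ => ?_
        by_cases hj : j = i0
        · rw [hβ0 j hj, hj, ha0']
          ring
        · rw [hβ1 j hj]
          ring
      rw [h1, pow_succ] at htop
      have h2 : (p : ℤ) ∣ ∑ j, β j * a j := Int.dvd_of_mul_dvd_mul_left hppos.ne' htop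
      rw [← ZMod.intCast_zmod_eq_zero_iff_dvd] at h2
      rw [← h2, Int.cast_sum]
      refine Finset.sum_congr rfl fun j _ => ?_
      rw [if_pos rfl, Int.cast_mul]

end Pool.Agent.W398.SK
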